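import Mathlib

set_option autoImplicit false
open Filter Topology

namespace Pool.Agent.Lib.MP_6df72f_an

variable {𝕜 : Type} [RCLike 𝕜] {X : Type} [NormedAddCommGroup X] [NormedSpace 𝕜 X]

/-- Passing to the limit in the basis inequality. -/
theorem partialSum_le_of_tendsto (f : ℕ → X) (K : ℝ)
    (hK : ∀ (a : ℕ → 𝕜) (n m : ℕ), n ≤ m →
      ‖∑ i ∈ Finset.range n, a i • f i‖ ≤ K * ‖∑ i ∈ Finset.range m, a i • f i‖)
    (a : ℕ → 𝕜) (y : X)
    (h : Tendsto (fun N => ∑ i ∈ Finset.range N, a i • f i) atTop (𝓝 y)) (n : ℕ) :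
    ‖∑ i ∈ Finset.range n, a i • f i‖ ≤ K * ‖y‖ := by
  have h1 : Tendsto (fun N => K * ‖∑ i ∈ Finset.range N, a i • f i‖) atTop (𝓝 (K * ‖y‖)) :=
    (h.norm).const_mul K
  exact ge_of_tendsto h1 (Filter.eventually_atTop.2 ⟨n, fun m hm => hK a n m hm⟩)

theorem partialSum_sub (f : ℕ → X) (a b : ℕ → 𝕜) (N : ℕ) :
    ∑ i ∈ Finset.range N, (a i - b i) • f i =
      ∑ i ∈ Finset.range N, a i • f i - ∑ i ∈ Finset.range N, b i • f i := by
  simp [sub_smul, Finset.sum_sub_distrib]

theorem partialSum_sub_le (f : ℕ → X) (K : ℝ)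
    (hK : ∀ (a : ℕ → 𝕜) (n m : ℕ), n ≤ m →
      ‖∑ i ∈ Finset.range n, a i • f i‖ ≤ K * ‖∑ i ∈ Finset.range m, a i • f i‖)
    (a b : ℕ → 𝕜) (y z : X)
    (ha : Tendsto (fun N => ∑ i ∈ Finset.range N, a i • f i) atTop (𝓝 y))
    (hb : Tendsto (fun N => ∑ i ∈ Finset.range N, b i • f i) atTop (𝓝 z)) (n : ℕ) :
    ‖∑ i ∈ Finset.range n, a i • f i - ∑ i ∈ Finset.range n, b i • f i‖ ≤ K * ‖y - z‖ := by
  have h := partialSum_le_of_tendsto f K hK (fun i => a i - b i) (y - z) (by
    simp only [partialSum_sub]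
    exact ha.sub hb) n
  rwa [partialSum_sub] at h

/-- The Grunblum criterion: the basis inequality gives unique expansions. -/
theorem existsUnique_of_grunblum (f : ℕ → X) (hf : ∀ n, f n ≠ 0) (K : ℝ) (hK0 : 0 ≤ K)
    (hK : ∀ (a : ℕ → 𝕜) (n m : ℕ), n ≤ m →
      ‖∑ i ∈ Finset.range n, a i • f i‖ ≤ K * ‖∑ i ∈ Finset.range m, a i • f i‖) :
    ∀ y ∈ (Submodule.span 𝕜 (Set.range f)).topologicalClosure,
      ∃! a : ℕ → 𝕜, Tendsto (fun N => ∑ i ∈ Finset.range N, a i • f i) atTop (𝓝 y) := by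
  classical
  -- coefficient estimate
  have hcoef : ∀ (a b : ℕ → 𝕜) (y z : X),
      Tendsto (fun N => ∑ i ∈ Finset.range N, a i • f i) atTop (𝓝 y) →
      Tendsto (fun N => ∑ i ∈ Finset.range N, b i • f i) atTop (𝓝 z) →
      ∀ n, ‖a n - b n‖ ≤ (2 * K / ‖f n‖) * ‖y - z‖ := by
    intro a b y z ha hb n
    have h1 := partialSum_sub_le f K hK a b y z ha hb n
    have h2 := partialSum_sub_le f K hK a b y z ha hb (n + 1)
    rw [← partialSum_sub] at h1 h2
    rw [Finset.sum_range_succ] at h2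
    have hpos : 0 < ‖f n‖ := norm_pos_iff.2 (hf n)
    have h3 : ‖(a n - b n) • f n‖ ≤ 2 * K * ‖y - z‖ := by
      have : (a n - b n) • f n = (∑ i ∈ Finset.range n, (a i - b i) • f i + (a n - b n) • f n)
          - ∑ i ∈ Finset.range n, (a i - b i) • f i := by abel
      rw [this]
      refine (norm_sub_le _ _).trans ?_
      linarith
    rw [norm_smul] at h3
    rw [div_mul_eq_mul_div, le_div_iff₀ hpos]
    exact h3
  -- elements of the span have expansions
  have hspan : ∀ y ∈ Submodule.span 𝕜 (Set.range f),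
      ∃ a : ℕ → 𝕜, Tendsto (fun N => ∑ i ∈ Finset.range N, a i • f i) atTop (𝓝 y) := by
    intro y hy
    induction hy using Submodule.span_induction with
    | mem x hx =>
      obtain ⟨n, rfl⟩ := hx
      refine ⟨Pi.single n 1, ?_⟩
      refine tendsto_const_nhds.congr' ?_
      filter_upwards [Filter.eventually_gt_atTop n] with N hN
      rw [Finset.sum_eq_single n]
      · simp
      · intro b _ hb
        simp [hb]
      · intro h
        exact absurd (Finset.mem_range.2 hN) h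
    | zero => exact ⟨0, by simp⟩
    | add x y _ _ hx hy =>
      obtain ⟨a, ha⟩ := hx
      obtain ⟨b, hb⟩ := hy
      refine ⟨a + b, ?_⟩
      simp only [Pi.add_apply, add_smul, Finset.sum_add_distrib]
      exact ha.add hb
    | smul c x _ hx =>
      obtain ⟨a, ha⟩ := hx
      refine ⟨c • a, ?_⟩
      simp only [Pi.smul_apply, smul_assoc, ← Finset.smul_sum]
      exact ha.const_smul c
  intro y hy
  have hy' : y ∈ closure (Submodule.span 𝕜 (Set.range f) : Set X) := hy
  obtain ⟨u, hu, hlim⟩ := mem_closure_iff_seq_limit.1 hy'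
  choose A hA using fun k => hspan (u k) (hu k)
  have hcauchy : ∀ n, CauchySeq (fun k => A k n) := by
    intro n
    have hc := hlim.cauchySeq
    rw [Metric.cauchySeq_iff] at hc ⊢
    intro ε hε
    have hC : 0 ≤ 2 * K / ‖f n‖ := by positivity
    obtain ⟨N, hN⟩ := hc (ε / (2 * K / ‖f n‖ + 1)) (by positivity)
    refine ⟨N, fun m hm l hl => ?_⟩
    have h1 := hcoef (A m) (A l) (u m) (u l) (hA m) (hA l) n
    have h2 := hN m hm l hl
    rw [dist_eq_norm] at h2 ⊢
    rw [lt_div_iff₀ (by positivity)] at h2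
    have h3 : 0 ≤ ‖u m - u l‖ := norm_nonneg _
    nlinarith
  choose a ha using fun n => cauchySeq_tendsto_of_complete (hcauchy n)
  have hmain : Tendsto (fun N => ∑ i ∈ Finset.range N, a i • f i) atTop (𝓝 y) := by
    have hest : ∀ k n, ‖∑ i ∈ Finset.range n, A k i • f i - ∑ i ∈ Finset.range n, a i • f i‖
        ≤ K * ‖u k - y‖ := by
      intro k n
      have h1 : Tendsto (fun l => ‖∑ i ∈ Finset.range n, A k i • f i -
          ∑ i ∈ Finset.range n, A l i • f i‖) atTop
          (𝓝 ‖∑ i ∈ Finset.range n, A k i • f i - ∑ i ∈ Finset.range n, a i • f i‖) := by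
        refine Tendsto.norm (Tendsto.sub tendsto_const_nhds ?_)
        exact tendsto_finsetSum _ fun i _ => (ha i).smul_const (f i)
      have h2 : Tendsto (fun l => K * ‖u k - u l‖) atTop (𝓝 (K * ‖u k - y‖)) :=
        ((tendsto_const_nhds.sub hlim).norm).const_mul K
      exact le_of_tendsto_of_tendsto' h1 h2 fun l =>
        partialSum_sub_le f K hK (A k) (A l) (u k) (u l) (hA k) (hA l) n
    rw [Metric.tendsto_atTop]
    intro ε hε
    obtain ⟨k, hk⟩ := (Metric.tendsto_atTop.1 hlim) (ε / (2 * (K + 1))) (by positivity)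
    have hk' := hk k le_rfl
    obtain ⟨N, hN⟩ := (Metric.tendsto_atTop.1 (hA k)) (ε / 2) (by positivity)
    refine ⟨N, fun n hn => ?_⟩
    have h1 := hN n hn
    have h2 := hest k n
    rw [dist_eq_norm] at h1 hk' ⊢
    rw [lt_div_iff₀ (by positivity)] at hk'
    have h3 : ∑ i ∈ Finset.range n, a i • f i - y =
        -(∑ i ∈ Finset.range n, A k i • f i - ∑ i ∈ Finset.range n, a i • f i)
          + (∑ i ∈ Finset.range n, A k i • f i - u k) + (u k - y) := by abel
    rw [h3]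
    refine lt_of_le_of_lt (norm_add₃_le) ?_
    rw [norm_neg]
    have h4 : 0 ≤ ‖u k - y‖ := norm_nonneg _
    nlinarith
  refine ⟨a, hmain, fun b hb => ?_⟩
  funext n
  have := hcoef b a y y hb hmain n
  simpa [sub_eq_zero] using this

/-- Mazur's lemma. -/
theorem mazur_lemma (F Y : Submodule 𝕜 X) [FiniteDimensional 𝕜 F]
    (hY : ¬ FiniteDimensional 𝕜 Y) (δ : ℝ) (hδ : 0 < δ) :
    ∃ y ∈ Y, ‖y‖ = 1 ∧ ∀ x ∈ F, ∀ t : 𝕜, (1 - δ) * ‖x‖ ≤ ‖x + t • y‖ := by
  classical
  have : ProperSpace F := FiniteDimensional.proper_rclike 𝕜 F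
  have hcomp : IsCompact (Metric.sphere (0 : F) 1) := isCompact_sphere 0 1
  obtain ⟨s, hs, hfin, hcover⟩ := hcomp.finite_cover_balls (half_pos hδ)
  choose g hg1 hg2 using fun x : X => exists_dual_vector'' 𝕜 x
  letI : Fintype s := hfin.fintype
  let T : Y →ₗ[𝕜] (s → 𝕜) := LinearMap.pi fun p : s =>
    ((g ((p : F) : X) : X →L[𝕜] 𝕜) : X →ₗ[𝕜] 𝕜).comp Y.subtype
  have hker : ∃ y : Y, y ≠ 0 ∧ T y = 0 := by
    by_contra hcon
    push Not at hcon
    have hinj : Function.Injective T := by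
      rw [← LinearMap.ker_eq_bot, LinearMap.ker_eq_bot']
      intro y hy
      by_contra h
      exact hcon y h hy
    exact hY (FiniteDimensional.of_injective T hinj)
  obtain ⟨y, hy0, hy⟩ := hker
  have hy0' : (y : X) ≠ 0 := fun h => hy0 (Subtype.ext h)
  have hypos : 0 < ‖(y : X)‖ := norm_pos_iff.2 hy0'
  have hgy : ∀ p : s, g ((p : F) : X) (y : X) = 0 := fun p => congrFun hy p
  refine ⟨((‖(y : X)‖⁻¹ : ℝ) : 𝕜) • (y : X), Y.smul_mem _ y.2, ?_, ?_⟩
  · rw [norm_smul, RCLike.norm_ofReal, abs_of_pos (by positivity), inv_mul_cancel₀ hypos.ne']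
  · -- first for unit vectors
    have hunit : ∀ x ∈ F, ‖x‖ = 1 → ∀ t : 𝕜, (1 - δ) ≤ ‖x + t • (y : X)‖ := by
      intro x hx hx1 t
      have hmem : (⟨x, hx⟩ : F) ∈ Metric.sphere (0 : F) 1 := by
        simpa using hx1
      obtain ⟨p, hp, hxp⟩ := Set.mem_iUnion₂.1 (hcover hmem)
      have hp1 : ‖(p : X)‖ = 1 := by simpa using hs hp
      have hxp' : ‖x - (p : X)‖ < δ / 2 := by
        rw [Metric.mem_ball, dist_eq_norm] at hxp
        exact hxp
      have h1 : g (p : X) (x + t • (y : X)) = 1 + g (p : X) (x - (p : X)) := by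
        have := hgy ⟨p, hp⟩
        simp only [map_add, map_smul, map_sub, hg2, hp1] at this ⊢
        rw [this]
        simp
      have h2 : ‖g (p : X) (x - (p : X))‖ ≤ δ / 2 := by
        refine ((g (p : X)).le_opNorm _).trans ?_
        have := hg1 (p : X)
        have h0 := norm_nonneg (x - (p : X))
        nlinarith
      have h3 : ‖g (p : X) (x + t • (y : X))‖ ≤ ‖x + t • (y : X)‖ := by
        refine ((g (p : X)).le_opNorm _).trans ?_
        have := hg1 (p : X)
        have h0 := norm_nonneg (x + t • (y : X))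
        nlinarith
      have h4 : (1 : ℝ) ≤ ‖1 + g (p : X) (x - (p : X))‖ + ‖g (p : X) (x - (p : X))‖ := by
        have : (1 : 𝕜) = (1 + g (p : X) (x - (p : X))) - g (p : X) (x - (p : X)) := by ring
        calc (1 : ℝ) = ‖(1 : 𝕜)‖ := by simp
          _ ≤ _ := by
            conv_lhs => rw [this]
            exact norm_sub_le _ _
      rw [h1] at h3
      linarith
    intro x hx t
    by_cases hx0 : x = 0
    · subst hx0
      simp
    have hxpos : 0 < ‖x‖ := norm_pos_iff.2 hx0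
    have hc : ‖((‖x‖⁻¹ : ℝ) : 𝕜)‖ = ‖x‖⁻¹ := by
      rw [RCLike.norm_ofReal, abs_of_pos (by positivity)]
    have h1 := hunit (((‖x‖⁻¹ : ℝ) : 𝕜) • x) (F.smul_mem _ hx)
      (by rw [norm_smul, hc, inv_mul_cancel₀ hxpos.ne'])
      (((‖x‖⁻¹ : ℝ) : 𝕜) * (t * ((‖(y : X)‖⁻¹ : ℝ) : 𝕜)))
    rw [mul_smul, ← smul_add, norm_smul, hc, mul_smul] at h1
    rw [inv_mul_eq_div, le_div_iff₀ hxpos] at h1
    exact h1

/-- One step of the construction. -/
theorem step_lemma (F Y : Submodule 𝕜 X) [FiniteDimensional 𝕜 F]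
    (hY : ¬ FiniteDimensional 𝕜 Y) (g : X) (δ : ℝ) (hδ : 0 < δ) (hδ1 : δ < 1) :
    ∃ f : X, f - g ∈ Y ∧ ∀ x ∈ F, ∀ t : 𝕜, (1 - δ) * ‖x‖ ≤ ‖x + t • f‖ := by
  have : FiniteDimensional 𝕜 (F ⊔ Submodule.span 𝕜 {g} : Submodule 𝕜 X) := inferInstance
  obtain ⟨y, hyY, hy1, hy⟩ := mazur_lemma (F ⊔ Submodule.span 𝕜 {g}) Y hY (δ / 2) (half_pos hδ)
  set L : ℝ := 8 * (‖g‖ + 1) / δ with hL
  have hLpos : 0 < L := by positivity
  refine ⟨g + (L : 𝕜) • y, by simpa using Y.smul_mem _ hyY, fun x hx t => ?_⟩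
  have hmem : x + t • g ∈ F ⊔ Submodule.span 𝕜 {g} :=
    Submodule.add_mem_sup hx (Submodule.smul_mem _ _ (Submodule.mem_span_singleton_self g))
  have h1 := hy _ hmem (t * (L : 𝕜))
  have heq : x + t • g + (t * (L : 𝕜)) • y = x + t • (g + (L : 𝕜) • y) := by
    rw [smul_add, mul_smul]; abel
  rw [heq] at h1
  set N := ‖x + t • (g + (L : 𝕜) • y)‖ with hN
  have hN0 : 0 ≤ N := norm_nonneg _
  set P := ‖x + t • g‖ with hP
  have hP0 : 0 ≤ P := norm_nonneg _
  have h2 : ‖t‖ * L ≤ N + P := by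
    have : (t * (L : 𝕜)) • y = (x + t • (g + (L : 𝕜) • y)) - (x + t • g) := by
      rw [← heq]; abel
    have h3 : ‖(t * (L : 𝕜)) • y‖ = ‖t‖ * L := by
      rw [norm_smul, hy1, norm_mul, RCLike.norm_ofReal, abs_of_pos hLpos, mul_one]
    rw [← h3, this]
    exact norm_sub_le _ _
  have h4 : ‖x‖ ≤ P + ‖t‖ * ‖g‖ := by
    have : x = (x + t • g) - t • g := by abel
    calc ‖x‖ = ‖(x + t • g) - t • g‖ := by rw [← this]
      _ ≤ P + ‖t • g‖ := norm_sub_le _ _
      _ = P + ‖t‖ * ‖g‖ := by rw [norm_smul]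
  have hPN : P ≤ 2 * N := by nlinarith
  have h5 : ‖t‖ * ‖g‖ ≤ δ / 8 * (3 * N) := by
    have h6 : ‖g‖ ≤ δ / 8 * L := by
      rw [hL]; field_simp; linarith
    have h7 : 0 ≤ ‖t‖ := norm_nonneg _
    calc ‖t‖ * ‖g‖ ≤ ‖t‖ * (δ / 8 * L) := by gcongr
      _ = δ / 8 * (‖t‖ * L) := by ring
      _ ≤ δ / 8 * (3 * N) := mul_le_mul_of_nonneg_left (by linarith) (by positivity)
  have h8 : (1 - δ) * P ≤ (1 - δ / 2) * N := by
    have : (1 - δ) * P ≤ (1 - δ / 2) * ((1 - δ / 2) * P) := by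
      have : 0 ≤ δ * δ * P := by positivity
      nlinarith
    refine this.trans ?_
    gcongr
    linarith
  have h9 : (1 - δ) * (‖t‖ * ‖g‖) ≤ δ / 2 * N := by
    have h10 : 0 ≤ ‖t‖ * ‖g‖ := by positivity
    have : 0 ≤ δ * N := by positivity
    nlinarith
  calc (1 - δ) * ‖x‖ ≤ (1 - δ) * (P + ‖t‖ * ‖g‖) := mul_le_mul_of_nonneg_left h4 (by linarith)
    _ = (1 - δ) * P + (1 - δ) * (‖t‖ * ‖g‖) := by ring
    _ ≤ N := by linarith

/-- Cosets of an infinite-dimensional subspace have representatives with the basis inequality. -/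
theorem exists_grunblum_rep (Y : Submodule 𝕜 X) (hY : ¬ FiniteDimensional 𝕜 Y) (g : ℕ → X) :
    ∃ f : ℕ → X, (∀ n, f n - g n ∈ Y) ∧ ∀ (a : ℕ → 𝕜) (n m : ℕ), n ≤ m →
      ‖∑ i ∈ Finset.range n, a i • f i‖ ≤ 2 * ‖∑ i ∈ Finset.range m, a i • f i‖ := by
  let c : ℕ → ℝ := fun n => 2 - 1 / ((n : ℝ) + 1)
  have hc1 : ∀ n, 1 ≤ c n := by
    intro n
    have : 1 / ((n : ℝ) + 1) ≤ 1 := by
      rw [div_le_one (by positivity)]; linarith [Nat.cast_nonneg (α := ℝ) n]
    simp only [c]; linarith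
  have hc2 : ∀ n, c n ≤ 2 := by
    intro n
    have : 0 ≤ 1 / ((n : ℝ) + 1) := by positivity
    simp only [c]; linarith
  have hc3 : ∀ n, c n < c (n + 1) := by
    intro n
    have : 1 / (((n + 1 : ℕ) : ℝ) + 1) < 1 / ((n : ℝ) + 1) := by
      apply one_div_lt_one_div_of_lt (by positivity)
      push_cast; linarith
    simp only [c]; linarith
  have hstep : ∀ (n : ℕ) (F : {F : Submodule 𝕜 X // FiniteDimensional 𝕜 F}),
      ∃ f : X, f - g n ∈ Y ∧ ∀ x ∈ F.1, ∀ t : 𝕜, c n * ‖x‖ ≤ c (n + 1) * ‖x + t • f‖ := by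
    intro n F
    have := F.2
    have hpos : 0 < c (n + 1) := by linarith [hc1 (n + 1)]
    have hq : c n / c (n + 1) < 1 := by rw [div_lt_one hpos]; exact hc3 n
    have hq0 : 0 < c n / c (n + 1) := div_pos (by linarith [hc1 n]) hpos
    obtain ⟨f, hf1, hf2⟩ := step_lemma F.1 Y hY (g n) (1 - c n / c (n + 1)) (by linarith)
      (by linarith)
    refine ⟨f, hf1, fun x hx t => ?_⟩
    have := hf2 x hx t
    rw [sub_sub_cancel, div_mul_eq_mul_div, div_le_iff₀ hpos] at this
    linarith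
  choose nxt hn1 hn2 using hstep
  let F : ℕ → {F : Submodule 𝕜 X // FiniteDimensional 𝕜 F} := fun n =>
    Nat.rec ⟨⊥, inferInstance⟩ (fun k G => ⟨G.1 ⊔ Submodule.span 𝕜 {nxt k G}, by
      have := G.2
      infer_instance⟩) n
  have hF : ∀ n, (F (n + 1)).1 = (F n).1 ⊔ Submodule.span 𝕜 {nxt n (F n)} := fun n => rfl
  refine ⟨fun n => nxt n (F n), fun n => hn1 n (F n), fun a n m hnm => ?_⟩
  have hmem : ∀ n, ∑ i ∈ Finset.range n, a i • nxt i (F i) ∈ (F n).1 := by
    intro n
    induction n with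
    | zero => simp
    | succ k ih =>
      rw [Finset.sum_range_succ, hF]
      exact Submodule.add_mem_sup ih
        (Submodule.smul_mem _ _ (Submodule.mem_span_singleton_self _))
  have hmono : Monotone fun n => c n * ‖∑ i ∈ Finset.range n, a i • nxt i (F i)‖ := by
    refine monotone_nat_of_le_succ fun k => ?_
    rw [Finset.sum_range_succ]
    exact hn2 k (F k) _ (hmem k) (a k)
  have h1 := hmono hnm
  simp only at h1
  have h2 := hc1 n
  have h3 := hc2 m
  have h4 := norm_nonneg (∑ i ∈ Finset.range n, a i • nxt i (F i))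
  have h5 := norm_nonneg (∑ i ∈ Finset.range m, a i • nxt i (F i))
  nlinarith

/-- Lifting a basic sequence through a surjective bounded operator between Banach spaces. -/
theorem exists_basic_lift [CompleteSpace X] {Z : Type} [NormedAddCommGroup Z] [NormedSpace 𝕜 Z]
    [CompleteSpace Z] (q : X →L[𝕜] Z) (hq : Function.Surjective q) (φ : ℕ → Z)
    (hφ0 : ∀ n, φ n ≠ 0)
    (hφ : ∀ y ∈ (Submodule.span 𝕜 (Set.range φ)).topologicalClosure,
      ∃! a : ℕ → 𝕜, Tendsto (fun N => ∑ i ∈ Finset.range N, a i • φ i) atTop (𝓝 y)) :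
    ∃ f : ℕ → X, (∀ n, q (f n) = φ n) ∧ (∀ n, f n ≠ 0) ∧
      ∀ y ∈ (Submodule.span 𝕜 (Set.range f)).topologicalClosure,
        ∃! a : ℕ → 𝕜, Tendsto (fun N => ∑ i ∈ Finset.range N, a i • f i) atTop (𝓝 y) := by
  by_cases hY : FiniteDimensional 𝕜 q.ker
  · obtain ⟨p, hp⟩ := Submodule.ClosedComplemented.of_finiteDimensional (𝕜 := 𝕜) q.ker
    have hinj : (q.prod p).ker = ⊥ := by
      rw [LinearMap.ker_eq_bot']
      intro x hx
      have hx1 : q x = 0 := congrArg Prod.fst hx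
      have hx2 : p x = 0 := congrArg Prod.snd hx
      have := hp ⟨x, hx1⟩
      rw [hx2] at this
      exact (congrArg Subtype.val this).symm
    have hsurj : (q.prod p).range = ⊤ := by
      rw [LinearMap.range_eq_top]
      rintro ⟨z, w⟩
      obtain ⟨x, rfl⟩ := hq z
      refine ⟨x - (p x : X) + (w : X), ?_⟩
      have h1 : q (p x : X) = 0 := (p x).2
      have h2 : q (w : X) = 0 := w.2
      have h3 := hp (p x)
      have h4 := hp w
      ext
      · simp [h1, h2]
      · simp [h3, h4]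
    let e := ContinuousLinearEquiv.ofBijective (q.prod p) hinj hsurj
    let J : Z →L[𝕜] X := (e.symm : Z × q.ker →L[𝕜] X).comp (ContinuousLinearMap.inl 𝕜 Z q.ker)
    have hJ : ∀ z, q (J z) = z := by
      intro z
      have : e (e.symm (z, 0)) = (z, 0) := e.apply_symm_apply _
      exact congrArg Prod.fst this
    refine ⟨fun n => J (φ n), fun n => hJ _, fun n h => hφ0 n ?_, fun y hy => ?_⟩
    · rw [← hJ (φ n)]
      simp only at h
      rw [h, map_zero]
    · have hy1 : J (q y) = y ∧ q y ∈ (Submodule.span 𝕜 (Set.range φ)).topologicalClosure := by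
        have hclosed : IsClosed {y : X | J (q y) = y ∧
            q y ∈ (Submodule.span 𝕜 (Set.range φ)).topologicalClosure} :=
          (isClosed_eq (J.continuous.comp q.continuous) continuous_id).inter
            ((Submodule.isClosed_topologicalClosure _).preimage q.continuous)
        refine closure_minimal (s := (Submodule.span 𝕜 (Set.range fun n => J (φ n)) : Set X))
          ?_ hclosed hy
        intro x hx
        induction hx using Submodule.span_induction with
        | mem x hx =>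
          obtain ⟨n, rfl⟩ := hx
          refine ⟨by simp only [hJ], ?_⟩
          simp only [hJ]
          exact Submodule.le_topologicalClosure _ (Submodule.subset_span ⟨n, rfl⟩)
        | zero => exact ⟨by simp, by simp⟩
        | add x y _ _ hx hy =>
          exact ⟨by simp only [map_add, hx.1, hy.1], by
            simp only [map_add]; exact Submodule.add_mem _ hx.2 hy.2⟩
        | smul c x _ hx =>
          exact ⟨by simp only [map_smul, hx.1], by
            simp only [map_smul]; exact Submodule.smul_mem _ _ hx.2⟩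
      obtain ⟨a, ha, hau⟩ := hφ (q y) hy1.2
      refine ⟨a, ?_, fun b hb => hau b ?_⟩
      · have := (J.continuous.tendsto _).comp ha
        rw [hy1.1] at this
        refine this.congr fun N => ?_
        simp [map_sum]
      · have := (q.continuous.tendsto _).comp hb
        refine this.congr fun N => ?_
        simp [map_sum, hJ]
  · choose g hg using fun n => hq (φ n)
    obtain ⟨f, hf1, hf2⟩ := exists_grunblum_rep q.ker hY g
    have hqf : ∀ n, q (f n) = φ n := by
      intro n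
      have : q (f n - g n) = 0 := hf1 n
      rw [map_sub, hg, sub_eq_zero] at this
      exact this
    have hf0 : ∀ n, f n ≠ 0 := by
      intro n h
      apply hφ0 n
      rw [← hqf n, h, map_zero]
    exact ⟨f, hqf, hf0, existsUnique_of_grunblum f hf0 2 (by norm_num) hf2⟩

end Pool.Agent.Lib.MP_6df72f_an
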